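import Pool.Agent.Helper40_ZOL.Stmts

/-!
# ZOL, rows DEG3, DEG1, DEG2
-/

set_option autoImplicit false

namespace Pool.Agent.ZOL.H25

open Finset

/-- the alternating sum over the subsets -/
def mb (h : Finset ℕ → ℤ) (A : Finset ℕ) : ℤ := ∑ B ∈ A.powerset, (-1 : ℤ) ^ B.card * h B

theorem mb_insert (h : Finset ℕ → ℤ) {a : ℕ} {S : Finset ℕ} (ha : a ∉ S) :
    mb h (insert a S) = mb h S - mb (fun B => h (insert a B)) S := by
  unfold mb
  rw [Finset.sum_powerset_insert ha, sub_eq_add_neg, ← Finset.sum_neg_distrib]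
  congr 1
  refine Finset.sum_congr rfl fun B hB => ?_
  have hB' : a ∉ B := fun h => ha (Finset.mem_powerset.1 hB h)
  rw [Finset.card_insert_of_notMem hB', pow_succ]
  ring

theorem mb_mb (S : Finset ℕ) : ∀ h : Finset ℕ → ℤ, mb (mb h) S = h S := by
  induction S using Finset.induction_on with
  | empty => intro h; simp [mb]
  | insert a S ha ih =>
    intro h
    rw [mb_insert _ ha]
    have h1 : mb (fun B => mb h (insert a B)) S =
        mb (fun B => mb h B - mb (fun C => h (insert a C)) B) S := by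
      refine Finset.sum_congr rfl fun B hB => ?_
      have hB' : a ∉ B := fun h => ha (Finset.mem_powerset.1 hB h)
      exact congrArg (fun z => (-1 : ℤ) ^ B.card * z) (mb_insert h hB')
    have h2 : mb (fun B => mb h B - mb (fun C => h (insert a C)) B) S =
        mb (mb h) S - mb (mb (fun C => h (insert a C))) S := by
      have h3 : ∀ f g : Finset ℕ → ℤ, mb (fun B => f B - g B) S = mb f S - mb g S := by
        intro f g
        unfold mb
        rw [← Finset.sum_sub_distrib]
        exact Finset.sum_congr rfl fun B _ => by ring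
      exact h3 _ _
    rw [h1, h2, ih, ih]
    ring

theorem deg3 : Deg3Stmt := fun h S => (mb_mb S h).symm

theorem sum_superset {U S : Finset ℕ} (h : ∃ c ∈ S, c ∉ U) :
    ∑ B ∈ S.powerset, (if U ⊆ B then (-1 : ℤ) ^ B.card else 0) = 0 := by
  obtain ⟨c, hc, hcU⟩ := h
  obtain ⟨S', hS', rfl⟩ : ∃ S', c ∉ S' ∧ insert c S' = S :=
    ⟨S.erase c, Finset.notMem_erase c S, Finset.insert_erase hc⟩
  rw [Finset.sum_powerset_insert hS', ← Finset.sum_add_distrib]
  refine Finset.sum_eq_zero fun B hB => ?_
  have hB' : c ∉ B := fun h => hS' (Finset.mem_powerset.1 hB h)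
  have h1 : U ⊆ insert c B ↔ U ⊆ B := by
    rw [Finset.subset_insert_iff, Finset.erase_eq_of_notMem hcU]
  rw [Finset.card_insert_of_notMem hB']
  by_cases h2 : U ⊆ B
  · rw [if_pos h2, if_pos (h1.2 h2), pow_succ]
    ring
  · rw [if_neg h2, if_neg (fun h => h2 (h1.1 h))]
    ring

theorem deg1 : Deg1Stmt := by
  intro h g m n hh hg S hS
  have e1 : ∀ B ∈ S.powerset, h B = ∑ A ∈ S.powerset,
      if A ⊆ B then (-1 : ℤ) ^ A.card * mb h A else 0 := by
    intro B hB
    rw [← Finset.sum_filter]
    have h1 : S.powerset.filter (fun A => A ⊆ B) = B.powerset := by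
      ext A
      simp only [Finset.mem_filter, Finset.mem_powerset]
      exact ⟨fun h => h.2, fun h => ⟨h.trans (Finset.mem_powerset.1 hB), h⟩⟩
    rw [h1]
    exact deg3 h B
  have e2 : ∀ B ∈ S.powerset, g B = ∑ A ∈ S.powerset,
      if A ⊆ B then (-1 : ℤ) ^ A.card * mb g A else 0 := by
    intro B hB
    rw [← Finset.sum_filter]
    have h1 : S.powerset.filter (fun A => A ⊆ B) = B.powerset := by
      ext A
      simp only [Finset.mem_filter, Finset.mem_powerset]
      exact ⟨fun h => h.2, fun h => ⟨h.trans (Finset.mem_powerset.1 hB), h⟩⟩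
    rw [h1]
    exact deg3 g B
  have e3 : ∑ B ∈ S.powerset, (-1 : ℤ) ^ B.card * (h B * g B) =
      ∑ A ∈ S.powerset, ∑ A' ∈ S.powerset, (-1 : ℤ) ^ A.card * mb h A *
        ((-1 : ℤ) ^ A'.card * mb g A') *
          ∑ B ∈ S.powerset, (if A ∪ A' ⊆ B then (-1 : ℤ) ^ B.card else 0) := by
    have h1 : ∀ B ∈ S.powerset, (-1 : ℤ) ^ B.card * (h B * g B) =
        ∑ A ∈ S.powerset, ∑ A' ∈ S.powerset, (-1 : ℤ) ^ A.card * mb h A *
        ((-1 : ℤ) ^ A'.card * mb g A') * (if A ∪ A' ⊆ B then (-1 : ℤ) ^ B.card else 0) := by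
      intro B hB
      rw [e1 B hB, e2 B hB, Finset.sum_mul_sum, Finset.mul_sum]
      refine Finset.sum_congr rfl fun A _ => ?_
      rw [Finset.mul_sum]
      refine Finset.sum_congr rfl fun A' _ => ?_
      by_cases h1 : A ⊆ B
      · by_cases h2 : A' ⊆ B
        · rw [if_pos h1, if_pos h2, if_pos (Finset.union_subset h1 h2)]
          ring
        · rw [if_neg h2, if_neg (fun h => h2 (Finset.subset_union_right.trans h))]
          ring
      · rw [if_neg h1, if_neg (fun h => h1 (Finset.subset_union_left.trans h))]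
        ring
    rw [Finset.sum_congr rfl h1, Finset.sum_comm]
    refine Finset.sum_congr rfl fun A _ => ?_
    rw [Finset.sum_comm]
    refine Finset.sum_congr rfl fun A' _ => ?_
    rw [Finset.mul_sum]
  rw [e3]
  refine Finset.sum_eq_zero fun A hA => Finset.sum_eq_zero fun A' hA' => ?_
  by_cases h1 : m < A.card
  · have : mb h A = 0 := hh A h1
    rw [this]; ring
  by_cases h2 : n < A'.card
  · have : mb g A' = 0 := hg A' h2
    rw [this]; ring
  have h3 : ∃ c ∈ S, c ∉ A ∪ A' := by
    by_contra hcon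
    push Not at hcon
    have h4 : S.card ≤ (A ∪ A').card := Finset.card_le_card hcon
    have h5 := Finset.card_union_le A A'
    omega
  rw [sum_superset h3, mul_zero]

theorem deg_const (m : ℕ) (c : ℤ) : Deg m (fun _ => c) := by
  intro A hA
  rw [← Finset.sum_mul, Finset.sum_powerset_neg_one_pow_card_of_nonempty, zero_mul]
  exact Finset.card_pos.1 (by omega)

theorem deg_sub {m : ℕ} {h g : Finset ℕ → ℤ} (hh : Deg m h) (hg : Deg m g) :
    Deg m (fun S => h S - g S) := by
  intro A hA
  have h1 := hh A hA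
  have h2 := hg A hA
  have h3 : ∑ B ∈ A.powerset, (-1 : ℤ) ^ B.card * (h B - g B) =
      ∑ B ∈ A.powerset, (-1 : ℤ) ^ B.card * h B - ∑ B ∈ A.powerset, (-1 : ℤ) ^ B.card * g B := by
    rw [← Finset.sum_sub_distrib]
    exact Finset.sum_congr rfl fun B _ => by ring
  rw [h3, h1, h2, sub_zero]

theorem deg2 : Deg2Stmt := by
  intro h m j hh
  have h1 : ∀ j : ℕ, Deg (m * j) (fun S => (descPochhammer ℤ j).eval (h S)) := by
    intro j
    induction j with
    | zero =>
      simp only [descPochhammer_zero, Polynomial.eval_one]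
      exact deg_const _ 1
    | succ j ih =>
      have h2 := deg1 _ _ _ _ ih (deg_sub hh (deg_const m (j : ℤ)))
      rw [← Nat.mul_succ] at h2
      intro A hA
      have h3 := h2 A hA
      rw [← h3]
      refine Finset.sum_congr rfl fun B _ => ?_
      have h4 : (descPochhammer ℤ (j + 1)).eval (h B) =
          (descPochhammer ℤ j).eval (h B) * (h B - (j : ℤ)) := by
        rw [descPochhammer_succ_right, Polynomial.eval_mul]
        simp
      exact congrArg (fun z => (-1 : ℤ) ^ B.card * z) h4
  intro A hA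
  have h2 := h1 j A hA
  have h3 : ∀ x : ℤ, (descPochhammer ℤ j).eval x = (j.factorial : ℤ) * Ring.choose x j := by
    intro x
    have h4 := Ring.descPochhammer_eq_factorial_smul_choose x j
    rw [nsmul_eq_mul] at h4
    rw [← h4, Polynomial.eval_eq_smeval]
  simp only [h3] at h2
  have h4 : (j.factorial : ℤ) * ∑ B ∈ A.powerset, (-1 : ℤ) ^ B.card * Ring.choose (h B) j = 0 := by
    rw [Finset.mul_sum, ← h2]
    exact Finset.sum_congr rfl fun B _ => by ring
  have h5 : (j.factorial : ℤ) ≠ 0 := by exact_mod_cast Nat.factorial_ne_zero j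
  exact (mul_eq_zero.1 h4).resolve_left h5

end Pool.Agent.ZOL.H25
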