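import Pool.Agent.Helper40_ZOL.Stmts

/-!
# ZOL, rows GFLIP, FANT (and FZERO)
-/

set_option autoImplicit false

namespace Pool.Agent.ZOL.H25

open Finset

/-- crossing change on letters -/
def fl (S : Finset ℕ) (l : Letter) : Letter := if l.1 ∈ S then (l.1, l.2.1, !l.2.2) else l

theorem flip_eq (S : Finset ℕ) (w : Word) : flip S w = w.map (fl S) := rfl

theorem fl_fst (S : Finset ℕ) (l : Letter) : (fl S l).1 = l.1 := by
  unfold fl
  split_ifs <;> rfl

theorem fl_side (S : Finset ℕ) (l : Letter) : (fl S l).2.1 = l.2.1 := by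
  unfold fl
  split_ifs <;> rfl

theorem labels_flip (S : Finset ℕ) (w : Word) : labels (flip S w) = labels w := by
  unfold labels
  rw [flip_eq, List.map_map]
  congr 1
  exact List.map_congr_left fun l _ => fl_fst S l

theorem shadow_flip (S : Finset ℕ) (w : Word) : shadow (flip S w) = shadow w := by
  unfold shadow
  rw [flip_eq, List.map_map]
  refine List.map_congr_left fun l _ => ?_
  change ((fl S l).1, (fl S l).2.1) = (l.1, l.2.1)
  rw [fl_fst, fl_side]

theorem sub_flip (R S : Finset ℕ) (w : Word) : sub R (flip S w) = flip S (sub R w) := by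
  unfold sub
  rw [flip_eq, flip_eq, List.filter_map]
  congr 1
  refine List.filter_congr fun l _ => ?_
  change decide ((fl S l).1 ∈ R) = decide (l.1 ∈ R)
  rw [fl_fst]

theorem fl_bar (S : Finset ℕ) (l : Letter) : fl S (bar l) = bar (fl S l) := by
  unfold fl bar
  by_cases h : l.1 ∈ S
  · simp [h]
  · simp [h]

theorem gflip : GFlipStmt := by
  intro w S hw a ha
  rw [labels_flip] at ha
  obtain ⟨l, hl⟩ := hw a ha
  refine ⟨fl S l, ?_⟩
  rw [sub_flip, hl, flip_eq]
  simp only [List.map_cons, List.map_nil]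
  rw [fl_bar]

theorem flip_flip {S T : Finset ℕ} (h : Disjoint S T) (w : Word) :
    flip S (flip T w) = flip (S ∪ T) w := by
  rw [flip_eq, flip_eq, flip_eq, List.map_map]
  refine List.map_congr_left fun l _ => ?_
  change fl S (fl T l) = fl (S ∪ T) l
  unfold fl
  by_cases h1 : l.1 ∈ T
  · have h2 : l.1 ∉ S := fun h2 => (Finset.disjoint_left.1 h h2 h1).elim
    simp [h1, h2]
  · by_cases h2 : l.1 ∈ S
    · simp [h1, h2]
    · simp [h1, h2]

theorem flip_empty (w : Word) : flip ∅ w = w := by
  rw [flip_eq]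
  have : fl ∅ = id := by
    funext l
    simp [fl]
  rw [this, List.map_id]

theorem alt_insert {c : ℕ} {C : Finset ℕ} (hc : c ∉ C) (w : Word) :
    alt (insert c C) w = alt C w - alt C (flip {c} w) := by
  unfold alt
  rw [Finset.sum_powerset_insert hc, sub_eq_add_neg, ← Finset.sum_neg_distrib]
  congr 1
  refine Finset.sum_congr rfl fun S hS => ?_
  have hS' : c ∉ S := fun h => hc (Finset.mem_powerset.1 hS h)
  rw [Finset.card_insert_of_notMem hS', flip_flip (Finset.disjoint_singleton_right.2 hS'),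
    Finset.union_comm, ← Finset.insert_eq, pow_succ]
  simp

theorem alt_mem {C : Finset ℕ} {w : Word} (hw : IsGauss w) (hp : Planar (shadow w))
    (hC : C ⊆ labels w) : alt C w ∈ F C.card :=
  AddSubgroup.subset_closure ⟨w, C, hw, hp, hC, rfl, rfl⟩

theorem fant : FAntStmt := by
  intro d
  unfold F
  rw [AddSubgroup.closure_le]
  rintro x ⟨w, C, hw, hp, hC, hcard, rfl⟩
  obtain ⟨c, C', hc, rfl, hcard'⟩ := Finset.card_eq_succ.1 hcard
  rw [alt_insert hc]
  have h1 : C' ⊆ labels w := (Finset.subset_insert c C').trans hC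
  refine AddSubgroup.sub_mem _ ?_ ?_
  · exact AddSubgroup.subset_closure ⟨w, C', hw, hp, h1, hcard', rfl⟩
  · exact AddSubgroup.subset_closure ⟨flip {c} w, C', gflip w {c} hw,
      by rw [shadow_flip]; exact hp, by rw [labels_flip]; exact h1, hcard', rfl⟩

theorem fant_le {d e : ℕ} (h : d ≤ e) : F e ≤ F d := antitone_nat_of_succ_le fant h

theorem kn_eq {w : Word} (hw : IsGauss w) (hp : Planar (shadow w)) :
    kn w = Finsupp.single (Quot.mk _ (⟨w, hw, hp⟩ : Diagram)) 1 := by
  unfold kn
  rw [dif_pos ⟨hw, hp⟩]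
  rfl

theorem alt_empty (w : Word) : alt ∅ w = kn w := by
  unfold alt
  simp [flip_empty]

theorem fzero : FZeroStmt := by
  unfold FZeroStmt
  rw [eq_top_iff]
  intro x _
  induction x using Finsupp.induction_linear with
  | zero => exact AddSubgroup.zero_mem _
  | add f g hf hg =>
    exact AddSubgroup.add_mem _ (hf (AddSubgroup.mem_top _)) (hg (AddSubgroup.mem_top _))
  | single k n =>
    obtain ⟨⟨w, hw, hp⟩, rfl⟩ := Quot.exists_rep k
    have h1 : (Finsupp.single (Quot.mk _ (⟨w, hw, hp⟩ : Diagram)) n : ZK) = n • alt ∅ w := by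
      rw [alt_empty, kn_eq hw hp]
      exact (Finsupp.smul_single_one _ n).symm
    rw [h1]
    have h2 : alt ∅ w ∈ F 0 := alt_mem (C := ∅) hw hp (Finset.empty_subset _)
    exact AddSubgroup.zsmul_mem _ h2 _

end Pool.Agent.ZOL.H25
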