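import Pool.Agent.Helper25_ZOL.Deg
import Pool.Agent.Helper25_ZOL.Fant

/-!
# ZOL, row TH
-/

set_option autoImplicit false

namespace Pool.Agent.ZOL.H25

open Finset

theorem theta_single {K : Type} (v : K → ℤ) (j : ℕ) (k : K) (n : ℤ) :
    theta v j (Finsupp.single k n) = Finsupp.single k (Ring.choose (v k) j * n) := by
  unfold theta
  rw [Finsupp.liftAddHom_apply_single]
  rfl

theorem theta_kn {v : Knot → ℤ} {vW : Word → ℤ} (hv : ∀ D : Diagram, v (Quot.mk _ D) = vW D.1)
    (j : ℕ) {w : Word} (hw : IsGauss w) (hp : Planar (shadow w)) :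
    theta v j (kn w) = Ring.choose (vW w) j • kn w := by
  obtain ⟨k, hk, hk'⟩ : ∃ k : Knot, v k = vW w ∧ kn w = Finsupp.single k 1 :=
    ⟨Quot.mk _ (⟨w, hw, hp⟩ : Diagram), hv ⟨w, hw, hp⟩, kn_eq hw hp⟩
  rw [hk', theta_single, hk, mul_one]
  exact (Finsupp.smul_single_one _ _).symm

theorem sum_above {A C : Finset ℕ} (hA : A ⊆ C) (w : Word) :
    ∑ S ∈ C.powerset.filter (fun S => A ⊆ S), (-1 : ℤ) ^ S.card • kn (flip S w) =
      (-1 : ℤ) ^ A.card • alt (C \ A) (flip A w) := by
  unfold alt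
  rw [Finset.smul_sum]
  symm
  refine Finset.sum_bij' (fun S _ => S ∪ A) (fun S _ => S \ A) ?_ ?_ ?_ ?_ ?_
  · intro S hS
    rw [Finset.mem_powerset] at hS
    rw [Finset.mem_filter, Finset.mem_powerset]
    exact ⟨Finset.union_subset (hS.trans Finset.sdiff_subset) hA, Finset.subset_union_right⟩
  · intro S hS
    rw [Finset.mem_filter, Finset.mem_powerset] at hS
    rw [Finset.mem_powerset]
    exact Finset.sdiff_subset_sdiff hS.1 subset_rfl
  · intro S hS
    rw [Finset.mem_powerset] at hS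
    have h1 : Disjoint S A := Finset.disjoint_of_subset_left hS Finset.sdiff_disjoint
    rw [Finset.union_sdiff_right]
    exact Finset.sdiff_eq_self_of_disjoint h1
  · intro S hS
    rw [Finset.mem_filter] at hS
    exact Finset.sdiff_union_of_subset hS.2
  · intro S hS
    rw [Finset.mem_powerset] at hS
    have h1 : Disjoint S A := Finset.disjoint_of_subset_left hS Finset.sdiff_disjoint
    rw [flip_flip h1, Finset.card_union_of_disjoint h1, smul_smul, ← pow_add, add_comm A.card]

theorem th : ThStmt := by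
  intro v vW m hv hdeg j d
  change F d ≤ (F (d - m * j)).comap (theta v j)
  rw [F, AddSubgroup.closure_le]
  rintro x ⟨w, C, hw, hp, hC, hcard, rfl⟩
  change theta v j (alt C w) ∈ F (d - m * j)
  obtain ⟨g, hg⟩ : ∃ g : Finset ℕ → ℤ, g = fun S => Ring.choose (vW (flip S w)) j := ⟨_, rfl⟩
  have hgd : Deg (m * j) g := by
    rw [hg]
    exact deg2 _ _ _ (hdeg w hw)
  have h1 : theta v j (alt C w) = ∑ S ∈ C.powerset, (-1 : ℤ) ^ S.card • (g S • kn (flip S w)) := by
    unfold alt
    rw [map_sum]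
    refine Finset.sum_congr rfl fun S _ => ?_
    rw [map_zsmul, theta_kn hv j (gflip w S hw) (by rw [shadow_flip]; exact hp), hg]
  have h2 : ∀ S ∈ C.powerset, (-1 : ℤ) ^ S.card • (g S • kn (flip S w)) =
      ∑ A ∈ C.powerset, if A ⊆ S then ((-1 : ℤ) ^ A.card * mb g A) •
        ((-1 : ℤ) ^ S.card • kn (flip S w)) else 0 := by
    intro S hS
    rw [← Finset.sum_filter]
    have h3 : C.powerset.filter (fun A => A ⊆ S) = S.powerset := by
      ext A
      simp only [Finset.mem_filter, Finset.mem_powerset]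
      exact ⟨fun h => h.2, fun h => ⟨h.trans (Finset.mem_powerset.1 hS), h⟩⟩
    rw [h3, ← Finset.sum_smul]
    have h4 : g S = ∑ A ∈ S.powerset, (-1 : ℤ) ^ A.card * mb g A := deg3 g S
    rw [← h4, smul_smul, smul_smul, mul_comm]
  rw [h1, Finset.sum_congr rfl h2, Finset.sum_comm]
  refine AddSubgroup.sum_mem _ fun A hA => ?_
  rw [Finset.mem_powerset] at hA
  rw [← Finset.sum_filter, ← Finset.smul_sum, sum_above hA]
  by_cases h3 : m * j < A.card
  · have h4 : mb g A = 0 := hgd A h3
    rw [h4, mul_zero, zero_smul]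
    exact AddSubgroup.zero_mem _
  · refine AddSubgroup.zsmul_mem _ (AddSubgroup.zsmul_mem _ ?_ _) _
    have h4 : alt (C \ A) (flip A w) ∈ F (C \ A).card := by
      refine alt_mem (gflip w A hw) ?_ ?_
      · rw [shadow_flip]; exact hp
      · rw [labels_flip]; exact Finset.sdiff_subset.trans hC
    refine fant_le ?_ h4
    rw [Finset.card_sdiff_of_subset hA]
    omega

end Pool.Agent.ZOL.H25
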